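import Pool.Agent.LeoC.CountStmts

/-!
Module HKA of squad LEOC: the sizes of the vectors and the action.
-/

set_option autoImplicit false

open NumberField NumberField.InfinitePlace NumberField.mixedEmbedding
open Pool.Agent.LeoK Pool.Agent.LeoG

open scoped Classical

namespace Pool.Agent.LeoC.H87

/-! ### Complex forms -/

/-- The coordinates after a linear change. -/
def uact (u : Fin 4 → ℂ) (x y z w : ℂ) : Fin 4 → ℂ :=
  ![u 0 * x + u 1 * z, u 0 * y + u 1 * w, u 2 * x + u 3 * z, u 2 * y + u 3 * w]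

lemma gact_tc (u : Fin 4 → ℂ) (x y z w : ℂ) : gact (tc u) x y z w = tc (uact u x y z w) := by
  funext i
  fin_cases i
  · simp [gact, tc, uact, gval]; ring
  · simp [gact, tc, uact, gval]; ring
  · simp [gact, tc, uact, gval]; ring
  · simp [gact, tc, uact, gval]; ring

lemma dc_uact (u : Fin 4 → ℂ) (x y z w : ℂ) : dc (uact u x y z w) = dc u * (x * w - y * z) := by
  simp [dc, uact]; ring

lemma hc_nonneg (htcu : TcuStmt) (htcb : TcbStmt) (v : Q4 ℂ) (hv : mm v ≠ 0) (X Y : ℂ) :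
    0 ≤ hc v X Y := by
  obtain ⟨u, hu, rfl⟩ := htcb.1 v hv
  rw [(htcu u).2.2 hu]
  positivity

lemma hc_pos (htcu : TcuStmt) (htcb : TcbStmt) (v : Q4 ℂ) (hv : mm v ≠ 0) (X Y : ℂ)
    (hXY : X ≠ 0 ∨ Y ≠ 0) : 0 < hc v X Y := by
  obtain ⟨u, hu, rfl⟩ := htcb.1 v hv
  rw [(htcu u).2.2 hu]
  have hd : 0 < ‖dc u‖ := norm_pos_iff.mpr hu
  have hn : 0 < ‖u 0 * X + u 1 * Y‖ ^ 2 + ‖u 2 * X + u 3 * Y‖ ^ 2 := by
    by_contra h
    have h1 : ‖u 0 * X + u 1 * Y‖ ^ 2 = 0 := by
      have a := sq_nonneg ‖u 0 * X + u 1 * Y‖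
      have b := sq_nonneg ‖u 2 * X + u 3 * Y‖
      linarith [not_lt.mp h]
    have h2 : ‖u 2 * X + u 3 * Y‖ ^ 2 = 0 := by
      have a := sq_nonneg ‖u 0 * X + u 1 * Y‖
      have b := sq_nonneg ‖u 2 * X + u 3 * Y‖
      linarith [not_lt.mp h]
    have e1 : u 0 * X + u 1 * Y = 0 := norm_eq_zero.mp (pow_eq_zero_iff (two_ne_zero) |>.mp h1)
    have e2 : u 2 * X + u 3 * Y = 0 := norm_eq_zero.mp (pow_eq_zero_iff (two_ne_zero) |>.mp h2)
    have d1 : dc u * X = 0 := by
      have : dc u * X = u 3 * (u 0 * X + u 1 * Y) - u 1 * (u 2 * X + u 3 * Y) := by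
        simp only [dc]; ring
      rw [this, e1, e2]; ring
    have d2 : dc u * Y = 0 := by
      have : dc u * Y = u 0 * (u 2 * X + u 3 * Y) - u 2 * (u 0 * X + u 1 * Y) := by
        simp only [dc]; ring
      rw [this, e1, e2]; ring
    rcases hXY with hX | hY
    · rcases mul_eq_zero.mp d1 with h | h
      · exact hu h
      · exact hX h
    · rcases mul_eq_zero.mp d2 with h | h
      · exact hu h
      · exact hY h
  positivity

lemma hc_smul (htcu : TcuStmt) (htcb : TcbStmt) (v : Q4 ℂ) (hv : mm v ≠ 0) (t X Y : ℂ) :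
    hc v (t * X) (t * Y) = ‖t‖ ^ 2 * hc v X Y := by
  obtain ⟨u, hu, rfl⟩ := htcb.1 v hv
  rw [(htcu u).2.2 hu, (htcu u).2.2 hu]
  have e1 : u 0 * (t * X) + u 1 * (t * Y) = t * (u 0 * X + u 1 * Y) := by ring
  have e2 : u 2 * (t * X) + u 3 * (t * Y) = t * (u 2 * X + u 3 * Y) := by ring
  rw [e1, e2, norm_mul, norm_mul]
  ring

lemma hc_gact (htcu : TcuStmt) (htcb : TcbStmt) (v : Q4 ℂ) (hv : mm v ≠ 0) (x y z w X Y : ℂ)
    (hd : x * w - y * z ≠ 0) :
    hc (gact v x y z w) X Y * ‖x * w - y * z‖ = hc v (x * X + y * Y) (z * X + w * Y) := by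
  obtain ⟨u, hu, rfl⟩ := htcb.1 v hv
  have hu' : dc (uact u x y z w) ≠ 0 := by
    rw [dc_uact]; exact mul_ne_zero hu hd
  rw [gact_tc, (htcu (uact u x y z w)).2.2 hu', (htcu u).2.2 hu, dc_uact, norm_mul]
  have e1 : uact u x y z w 0 * X + uact u x y z w 1 * Y =
      u 0 * (x * X + y * Y) + u 1 * (z * X + w * Y) := by
    simp [uact]; ring
  have e2 : uact u x y z w 2 * X + uact u x y z w 3 * Y =
      u 2 * (x * X + y * Y) + u 3 * (z * X + w * Y) := by
    simp [uact]; ring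
  rw [e1, e2]
  have h1 : ‖dc u‖ ≠ 0 := norm_ne_zero_iff.mpr hu
  have h2 : ‖x * w - y * z‖ ≠ 0 := norm_ne_zero_iff.mpr hd
  field_simp

/-! ### Integral forms -/

section

variable {k : Type} [Field k] [NumberField k]

/-- The embedding of the integers at a place. -/
noncomputable def ph (v : InfinitePlace k) : 𝓞 k →+* ℂ := v.embedding.comp (algebraMap (𝓞 k) k)

lemma ph_apply (v : InfinitePlace k) (x : 𝓞 k) : v.embedding (x : k) = ph v x := rfl

lemma norm_ph (v : InfinitePlace k) (x : 𝓞 k) : ‖ph v x‖ = v (x : k) := by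
  rw [← ph_apply, InfinitePlace.norm_embedding_eq]

lemma ph_ne_zero (v : InfinitePlace k) {x : 𝓞 k} (hx : x ≠ 0) : ph v x ≠ 0 := by
  rw [← norm_ne_zero_iff, norm_ph]
  rw [map_ne_zero]
  exact RingOfIntegers.coe_ne_zero_iff.mpr hx

lemma fv_em (hevs : EvsStmt) (v : InfinitePlace k) (g : Q4 (𝓞 k)) :
    fv v (em g) = fun i => ph v (g i) := by
  funext i
  exact (hevs k).1 v (g i : k)

lemma hk_eq (hevs : EvsStmt) (g : Q4 (𝓞 k)) (X Y : 𝓞 k) (v : InfinitePlace k) :
    hk g X Y v = hc (fun i => ph v (g i)) (ph v X) (ph v Y) := by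
  unfold hk
  rw [fv_em hevs]
  rfl

lemma map_mm {A B : Type} [CommRing A] [CommRing B] (f : A →+* B) (g : Q4 A) :
    mm (fun i => f (g i)) = f (mm g) := by
  simp only [mm, dsc, map_neg, map_sub, map_add, map_mul, map_pow, map_ofNat]

lemma map_gact {A B : Type} [CommRing A] [CommRing B] (f : A →+* B) (g : Q4 A) (x y z w : A) :
    (fun i => f (gact g x y z w i)) = gact (fun i => f (g i)) (f x) (f y) (f z) (f w) := by
  funext i
  fin_cases i
  · simp [gact, gval, map_ofNat]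
  · simp [gact, gval, map_ofNat]
  · simp [gact, gval, map_ofNat]
  · simp [gact, gval, map_ofNat]

lemma gmir_eq {A : Type} [CommRing A] (g : Q4 A) : gmir g = gact g (-1) 0 0 1 := by
  funext i
  fin_cases i
  · simp only [gact, gval, gmir]
    simp only [Fin.zero_eta, Matrix.cons_val_zero]
    ring
  · simp [gact, gval, gmir]
  · simp [gact, gval, gmir]
  · simp [gact, gval, gmir]

end

/-- HKA. -/
theorem hka (hevs : EvsStmt) (htcu : TcuStmt) (htcb : TcbStmt) : HkaStmt := by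
  intro k _ _ g hg
  have hm : ∀ v : InfinitePlace k, mm (fun i => ph v (g i)) ≠ 0 := by
    intro v
    rw [map_mm]
    exact ph_ne_zero v hg
  have hact : ∀ x y z w X Y : 𝓞 k, ∀ v : InfinitePlace k, x * w - y * z ≠ 0 →
      hk (gact g x y z w) X Y v * v ((x * w - y * z : 𝓞 k) : k) =
        hk g (x * X + y * Y) (z * X + w * Y) v := by
    intro x y z w X Y v hd
    rw [hk_eq hevs, hk_eq hevs, map_gact, ← norm_ph]
    have h := hc_gact htcu htcb (fun i => ph v (g i)) (hm v) (ph v x) (ph v y) (ph v z) (ph v w)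
      (ph v X) (ph v Y) (by
        rw [← map_mul, ← map_mul, ← map_sub]
        exact ph_ne_zero v hd)
    simp only [map_add, map_mul, map_sub]
    exact h
  refine ⟨?_, ?_, ?_, hact, ?_, ?_⟩
  · intro X Y v
    rw [hk_eq hevs]
    exact hc_nonneg htcu htcb _ (hm v) _ _
  · intro X Y h v
    rw [hk_eq hevs]
    refine hc_pos htcu htcb _ (hm v) _ _ ?_
    rcases h with h | h
    · exact Or.inl (ph_ne_zero v h)
    · exact Or.inr (ph_ne_zero v h)
  · intro t X Y v
    rw [hk_eq hevs, hk_eq hevs, map_mul, map_mul, hc_smul htcu htcb _ (hm v), norm_ph]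
  · intro X Y
    funext v
    have h := hact (-1) 0 0 1 X Y v (by simp)
    rw [← gmir_eq] at h
    have e : v (((-1 : 𝓞 k) * 1 - 0 * 0 : 𝓞 k) : k) = 1 := by
      have e1 : (((-1 : 𝓞 k) * 1 - 0 * 0 : 𝓞 k) : k) = -1 := by simp
      rw [e1, ← InfinitePlace.norm_embedding_eq, map_neg, map_one, norm_neg, norm_one]
    rw [e, mul_one] at h
    rw [h]
    simp
  · funext v
    unfold sz hk
    simp

end Pool.Agent.LeoC.H87
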